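import Mathlib

namespace Pool.Agent.Lib.MP_bd8ab5_nt

open Finset

lemma cut {ι : Type*} (C : Finset ι) (r r' : ι → ℚ)
    (h : ∀ c ∈ C, ∀ e ∈ C, r c ≤ r e ↔ r' c ≤ r' e) (t : ℚ) :
    ∃ s : ℚ, (∀ c ∈ C, (t ≤ r c ↔ s ≤ r' c) ∧ (r c ≤ t ↔ r' c ≤ s)) ∧
      (s = 0 ∨ (∃ c ∈ C, s = r' c + 1) ∨ (∃ c ∈ C, s = r' c - 1) ∨
        ∃ c ∈ C, ∃ e ∈ C, s = (r' c + r' e) / 2) := by
  classical
  by_cases hL : (C.filter (fun c => r c ≤ t)).Nonempty
  · obtain ⟨c1, hc1, hmax⟩ := Finset.exists_max_image _ r hL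
    rw [Finset.mem_filter] at hc1
    have hmax' : ∀ c ∈ C, r c ≤ t → r c ≤ r c1 := fun c hc hct =>
      hmax c (Finset.mem_filter.2 ⟨hc, hct⟩)
    by_cases hU : (C.filter (fun c => t ≤ r c)).Nonempty
    · obtain ⟨c2, hc2, hmin⟩ := Finset.exists_min_image _ r hU
      rw [Finset.mem_filter] at hc2
      have hmin' : ∀ c ∈ C, t ≤ r c → r c2 ≤ r c := fun c hc hct =>
        hmin c (Finset.mem_filter.2 ⟨hc, hct⟩)
      have h12 : r' c1 ≤ r' c2 := (h c1 hc1.1 c2 hc2.1).1 (le_trans hc1.2 hc2.2)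
      refine ⟨(r' c1 + r' c2) / 2, ?_, Or.inr (Or.inr (Or.inr ⟨c1, hc1.1, c2, hc2.1, rfl⟩))⟩
      intro c hc
      constructor
      · constructor
        · intro hh
          have := (h c2 hc2.1 c hc).1 (hmin' c hc hh)
          linarith
        · intro hh
          by_contra hn
          push Not at hn
          have a1 := (h c hc c1 hc1.1).1 (hmax' c hc hn.le)
          have a2 : ¬ r' c2 ≤ r' c := fun hx => by
            have := (h c2 hc2.1 c hc).2 hx
            linarith [hc2.2]
          push Not at a2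
          linarith
      · constructor
        · intro hh
          have := (h c hc c1 hc1.1).1 (hmax' c hc hh)
          linarith
        · intro hh
          by_contra hn
          push Not at hn
          have a1 := (h c2 hc2.1 c hc).1 (hmin' c hc hn.le)
          have a2 : ¬ r' c ≤ r' c1 := fun hx => by
            have := (h c hc c1 hc1.1).2 hx
            linarith [hc1.2]
          push Not at a2
          linarith
    · have hU' : ∀ c ∈ C, r c < t := by
        intro c hc
        by_contra hn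
        push Not at hn
        exact hU ⟨c, Finset.mem_filter.2 ⟨hc, hn⟩⟩
      refine ⟨r' c1 + 1, ?_, Or.inr (Or.inl ⟨c1, hc1.1, rfl⟩)⟩
      intro c hc
      have a1 := (h c hc c1 hc1.1).1 (hmax' c hc (hU' c hc).le)
      have a2 := hU' c hc
      constructor
      · constructor <;> intro hh <;> linarith
      · constructor <;> intro hh <;> linarith
  · have hL' : ∀ c ∈ C, t < r c := by
      intro c hc
      by_contra hn
      push Not at hn
      exact hL ⟨c, Finset.mem_filter.2 ⟨hc, hn⟩⟩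
    by_cases hC : C.Nonempty
    · obtain ⟨c2, hc2, hmin⟩ := Finset.exists_min_image _ r hC
      refine ⟨r' c2 - 1, ?_, Or.inr (Or.inr (Or.inl ⟨c2, hc2, rfl⟩))⟩
      intro c hc
      have a1 := (h c2 hc2 c hc).1 (hmin c hc)
      have a2 := hL' c hc
      constructor
      · constructor <;> intro hh <;> linarith
      · constructor <;> intro hh <;> linarith
    · refine ⟨0, ?_, Or.inl rfl⟩
      intro c hc
      exact absurd ⟨c, hc⟩ hC

def bnd : ℕ → ℕ → ℕ
  | 0, _ => 0
  | n + 1, M => (2 * (n + 1) * M * M + 1) * bnd n (2 * M * M) + M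

lemma abs_dot_le {n : ℕ} (c w : Fin n → ℤ) (M B : ℤ) (hc : ∀ i, |c i| ≤ M) (hw : ∀ i, |w i| ≤ B) :
    |c ⬝ᵥ w| ≤ n * (M * B) := by
  unfold dotProduct
  calc |∑ i, c i * w i| ≤ ∑ i, |c i * w i| := Finset.abs_sum_le_sum_abs _ _
    _ ≤ ∑ _i : Fin n, M * B := by
        apply Finset.sum_le_sum
        intro i _
        rw [abs_mul]
        exact mul_le_mul (hc i) (hw i) (abs_nonneg _) (le_trans (abs_nonneg _) (hc i))
    _ = n * (M * B) := by simp

lemma types (n : ℕ) : ∀ (M : ℕ) (v : Fin n → ℤ), ∃ w : Fin n → ℤ, (∀ i, |w i| ≤ bnd n M) ∧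
    ∀ c : Fin n → ℤ, (∀ i, |c i| ≤ M) → (0 ≤ c ⬝ᵥ v ↔ 0 ≤ c ⬝ᵥ w) := by
  induction n with
  | zero =>
    intro M v
    exact ⟨v, fun i => i.elim0, fun c _ => Iff.rfl⟩
  | succ n ih =>
    intro M v
    obtain ⟨w', hw'b, hw'⟩ := ih (2 * M * M) (Fin.tail v)
    set B : ℤ := (bnd n (2 * M * M) : ℤ) with hB
    have hB0 : 0 ≤ B := by positivity
    have hM0 : (0 : ℤ) ≤ M := by positivity
    have hMM : (M : ℤ) ≤ ((2 * M * M : ℕ) : ℤ) := by
      push_cast
      rcases Nat.eq_zero_or_pos M with h | h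
      · simp [h]
      · have : (1 : ℤ) ≤ M := by exact_mod_cast h
        nlinarith
    let C : Finset (ℤ × (Fin n → ℤ)) :=
      Finset.Icc (1 : ℤ) M ×ˢ Fintype.piFinset (fun _ => Finset.Icc (-(M : ℤ)) M)
    have hC : ∀ c : ℤ × (Fin n → ℤ), c ∈ C ↔ (1 ≤ c.1 ∧ c.1 ≤ M) ∧ ∀ i, |c.2 i| ≤ M := by
      intro c
      simp [C, abs_le]
    let r : ℤ × (Fin n → ℤ) → ℚ := fun c => -((c.2 ⬝ᵥ Fin.tail v : ℤ) : ℚ) / c.1
    let r' : ℤ × (Fin n → ℤ) → ℚ := fun c => -((c.2 ⬝ᵥ w' : ℤ) : ℚ) / c.1
    have key : ∀ (u : Fin n → ℤ), ∀ c ∈ C, ∀ e ∈ C,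
        (-((c.2 ⬝ᵥ u : ℤ) : ℚ) / c.1 ≤ -((e.2 ⬝ᵥ u : ℤ) : ℚ) / e.1 ↔
          0 ≤ (e.1 • c.2 - c.1 • e.2) ⬝ᵥ u) := by
      intro u c hc e he
      have hc1 : (0 : ℚ) < c.1 := by exact_mod_cast ((hC c).1 hc).1.1
      have he1 : (0 : ℚ) < e.1 := by exact_mod_cast ((hC e).1 he).1.1
      rw [div_le_div_iff₀ hc1 he1, sub_dotProduct, smul_dotProduct, smul_dotProduct,
        smul_eq_mul, smul_eq_mul]
      rw [← Int.cast_le (R := ℚ)]
      push_cast
      constructor <;> intro hh <;> linarith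
    have hcomp : ∀ c ∈ C, ∀ e ∈ C, r c ≤ r e ↔ r' c ≤ r' e := by
      intro c hc e he
      simp only [r, r']
      rw [key _ c hc e he, key _ c hc e he]
      apply hw'
      intro i
      obtain ⟨⟨c1, c2⟩, c3⟩ := (hC c).1 hc
      obtain ⟨⟨e1, e2⟩, e3⟩ := (hC e).1 he
      have x1 := c3 i
      have x2 := e3 i
      simp only [Pi.sub_apply, Pi.smul_apply, smul_eq_mul]
      push_cast
      have y1 : |e.1 * c.2 i| ≤ M * M := by
        rw [abs_mul]
        exact mul_le_mul (by rw [abs_of_nonneg (by linarith)]; exact e2) x1 (abs_nonneg _) hM0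
      have y2 : |c.1 * e.2 i| ≤ M * M := by
        rw [abs_mul]
        exact mul_le_mul (by rw [abs_of_nonneg (by linarith)]; exact c2) x2 (abs_nonneg _) hM0
      have := abs_sub (e.1 * c.2 i) (c.1 * e.2 i)
      linarith
    obtain ⟨s, hs, hform⟩ := cut C r r' hcomp (v 0)
    have hg : ∀ c ∈ C, |c.2 ⬝ᵥ w'| ≤ n * (M * B) := fun c hc =>
      abs_dot_le _ _ _ _ ((hC c).1 hc).2 hw'b
    have hD : ∃ D u : ℤ, 0 < D ∧ D ≤ 2 * M * M + 1 ∧ (D : ℚ) * s = u ∧
        |u| ≤ 2 * n * M * M * B + M := by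
      have hn0 : (0 : ℤ) ≤ n := by positivity
      have hnMB : 0 ≤ (n : ℤ) * (M * B) := by positivity
      rcases hform with h0 | ⟨c, hc, h1⟩ | ⟨c, hc, h1⟩ | ⟨c, hc, e, he, h1⟩
      · refine ⟨1, 0, one_pos, by nlinarith, by simp [h0], by simp; positivity⟩
      · obtain ⟨⟨c1, c2⟩, _⟩ := (hC c).1 hc
        have hc1 : (c.1 : ℚ) ≠ 0 := by
          have : (0 : ℚ) < c.1 := by exact_mod_cast c1
          exact this.ne'
        refine ⟨c.1, -(c.2 ⬝ᵥ w') + c.1, by linarith, by nlinarith, ?_, ?_⟩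
        · rw [h1]; simp only [r']; push_cast; field_simp
        · have := hg c hc
          have t1 := abs_add_le (-(c.2 ⬝ᵥ w')) c.1
          rw [abs_neg, abs_of_nonneg (by linarith : (0:ℤ) ≤ c.1)] at t1
          nlinarith
      · obtain ⟨⟨c1, c2⟩, _⟩ := (hC c).1 hc
        have hc1 : (c.1 : ℚ) ≠ 0 := by
          have : (0 : ℚ) < c.1 := by exact_mod_cast c1
          exact this.ne'
        refine ⟨c.1, -(c.2 ⬝ᵥ w') - c.1, by linarith, by nlinarith, ?_, ?_⟩
        · rw [h1]; simp only [r']; push_cast; field_simp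
        · have := hg c hc
          have t1 := abs_sub (-(c.2 ⬝ᵥ w')) c.1
          rw [abs_neg, abs_of_nonneg (by linarith : (0:ℤ) ≤ c.1)] at t1
          nlinarith
      · obtain ⟨⟨c1, c2⟩, _⟩ := (hC c).1 hc
        obtain ⟨⟨e1, e2⟩, _⟩ := (hC e).1 he
        have hc1 : (c.1 : ℚ) ≠ 0 := by
          have : (0 : ℚ) < c.1 := by exact_mod_cast c1
          exact this.ne'
        have he1 : (e.1 : ℚ) ≠ 0 := by
          have : (0 : ℚ) < e.1 := by exact_mod_cast e1
          exact this.ne'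
        refine ⟨2 * c.1 * e.1, -(e.1 * (c.2 ⬝ᵥ w')) - c.1 * (e.2 ⬝ᵥ w'), by positivity,
          by nlinarith, ?_, ?_⟩
        · rw [h1]; simp only [r']; push_cast; field_simp; ring
        · have g1 := hg c hc
          have g2 := hg e he
          have t1 := abs_sub (-(e.1 * (c.2 ⬝ᵥ w'))) (c.1 * (e.2 ⬝ᵥ w'))
          rw [abs_neg, abs_mul, abs_mul, abs_of_nonneg (by linarith : (0:ℤ) ≤ c.1),
            abs_of_nonneg (by linarith : (0:ℤ) ≤ e.1)] at t1
          have u1 : e.1 * |c.2 ⬝ᵥ w'| ≤ M * (n * (M * B)) :=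
            mul_le_mul e2 g1 (abs_nonneg _) hM0
          have u2 : c.1 * |e.2 ⬝ᵥ w'| ≤ M * (n * (M * B)) :=
            mul_le_mul c2 g2 (abs_nonneg _) hM0
          nlinarith
    obtain ⟨D, u, hD0, hD1, hDs, hu⟩ := hD
    refine ⟨Fin.cons u (D • w'), ?_, ?_⟩
    · intro i
      have hn0 : (0 : ℤ) ≤ n := by positivity
      have hMMB : 0 ≤ (M : ℤ) * M * B := by positivity
      have hnMMB : 0 ≤ (n : ℤ) * M * M * B := by positivity
      refine Fin.cases ?_ (fun j => ?_) i
      · simp only [Fin.cons_zero, bnd]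
        push_cast
        rw [← hB]
        nlinarith
      · simp only [Fin.cons_succ, bnd, Pi.smul_apply, smul_eq_mul]
        push_cast
        rw [← hB, abs_mul, abs_of_pos hD0]
        have := mul_le_mul hD1 (hw'b j) (abs_nonneg _) (by positivity)
        nlinarith
    · intro c hc
      have e1 : c ⬝ᵥ v = c 0 * v 0 + Fin.tail c ⬝ᵥ Fin.tail v := by
        simp [dotProduct, Fin.sum_univ_succ, Fin.tail]
      have e2 : c ⬝ᵥ Fin.cons u (D • w') = c 0 * u + D * (Fin.tail c ⬝ᵥ w') := by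
        simp [dotProduct, Fin.sum_univ_succ, Fin.tail, Finset.mul_sum, mul_left_comm]
      rw [e1, e2]
      have hDq : (0 : ℚ) < D := by exact_mod_cast hD0
      have hct : ∀ i, |Fin.tail c i| ≤ M := fun i => hc _
      rcases lt_trichotomy (c 0) 0 with h0 | h0 | h0
      · have hmem : ((-c 0, -Fin.tail c) : ℤ × (Fin n → ℤ)) ∈ C := by
          rw [hC]
          refine ⟨⟨by simp only; linarith, ?_⟩, fun i => by simpa using hct i⟩
          have := hc 0
          rw [abs_le] at this
          simp only; linarith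
        have hq : (0 : ℚ) < ((-c 0 : ℤ) : ℚ) := by exact_mod_cast (by linarith : 0 < -c 0)
        have := (hs _ hmem).1
        simp only [r, r'] at this
        rw [le_div_iff₀ hq, le_div_iff₀ hq, neg_dotProduct, neg_dotProduct] at this
        push_cast at this
        rw [← Int.cast_le (R := ℚ), ← Int.cast_le (R := ℚ) (n := c 0 * u + _)]
        push_cast
        rw [← hDs]
        constructor
        · intro hh
          have := this.1 (by linarith)
          nlinarith
        · intro hh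
          have : s * -(c 0 : ℚ) ≤ - -((Fin.tail c ⬝ᵥ w' : ℤ) : ℚ) := by
            by_contra hn
            push Not at hn
            nlinarith
          have := (by assumption : (_ ↔ _)).2 this
          linarith
      · rw [h0]
        simp only [zero_mul, zero_add]
        rw [hw' _ (fun i => le_trans (hct i) hMM)]
        constructor
        · intro hh; positivity
        · intro hh
          by_contra hn
          push Not at hn
          nlinarith
      · have hmem : ((c 0, Fin.tail c) : ℤ × (Fin n → ℤ)) ∈ C := by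
          rw [hC]
          refine ⟨⟨by simp only; linarith, ?_⟩, fun i => by simpa using hct i⟩
          have := hc 0
          rw [abs_le] at this
          simp only; linarith
        have hq : (0 : ℚ) < ((c 0 : ℤ) : ℚ) := by exact_mod_cast h0
        have := (hs _ hmem).2
        simp only [r, r'] at this
        rw [div_le_iff₀ hq, div_le_iff₀ hq] at this
        rw [← Int.cast_le (R := ℚ), ← Int.cast_le (R := ℚ) (n := c 0 * u + _)]
        push_cast
        rw [← hDs]
        constructor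
        · intro hh
          have := this.1 (by linarith)
          nlinarith
        · intro hh
          have : -((Fin.tail c ⬝ᵥ w' : ℤ) : ℚ) ≤ s * (c 0 : ℚ) := by
            by_contra hn
            push Not at hn
            nlinarith
          have := (by assumption : (_ ↔ _)).2 this
          linarith

end Pool.Agent.Lib.MP_bd8ab5_nt
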