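import Mathlib
import Pool.Agent.Lib.MP_bd8ab5_nt.Types

namespace Pool.Agent.Lib.MP_bd8ab5_nt

def inP (a b c d x : ℕ) : Prop := (a * x) % b + d ≤ c * x

lemma inP_add {a b c d x y : ℕ} (hx : inP a b c d x) (hy : inP a b c d y) :
    inP a b c d (x + y) := by
  unfold inP at *
  have h1 : (a * (x + y)) % b ≤ (a * x) % b + (a * y) % b := by
    rw [mul_add, Nat.add_mod]
    exact Nat.mod_le _ _
  rw [mul_add c]
  omega

lemma inP_large {a b c d x : ℕ} (hb : b ≠ 0) (hc : c ≠ 0) (hx : b + d ≤ x) : inP a b c d x := by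
  unfold inP
  have h1 : (a * x) % b < b := Nat.mod_lt _ (Nat.pos_of_ne_zero hb)
  have h2 : x ≤ c * x := Nat.le_mul_of_pos_left _ (Nat.pos_of_ne_zero hc)
  omega

lemma bounded_witness (N a b c d : ℕ) (hb : b ≠ 0) (hc : c ≠ 0) :
    ∃ a' < bnd 4 (N + 1) + 1, ∃ b' < bnd 4 (N + 1) + 1, ∃ c' < bnd 4 (N + 1) + 1,
      ∃ d' < bnd 4 (N + 1) + 1, b' ≠ 0 ∧ c' ≠ 0 ∧
        ∀ x ≤ N, (inP a b c d x ↔ inP a' b' c' d' x) := by
  have hbpos : 0 < b := Nat.pos_of_ne_zero hb
  have hcpos : 0 < c := Nat.pos_of_ne_zero hc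
  set a0 := a % b with ha0
  have ha0b : a0 < b := Nat.mod_lt _ hbpos
  obtain ⟨w, hwb, hw⟩ := types 4 (N + 1) ![(a0 : ℤ), b, c, d]
  have form : ∀ p q r s : ℤ, |p| ≤ N + 1 → |q| ≤ N + 1 → |r| ≤ N + 1 → |s| ≤ N + 1 →
      (0 ≤ p * a0 + q * b + r * c + s * d ↔ 0 ≤ p * w 0 + q * w 1 + r * w 2 + s * w 3) := by
    intro p q r s hp hq hr hs
    have := hw ![p, q, r, s] (by
      intro i
      fin_cases i <;> simp <;> assumption)
    simpa [dotProduct, Fin.sum_univ_four] using this
  have hN : (0 : ℤ) ≤ N := by positivity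
  have z0 : |(0 : ℤ)| ≤ N + 1 := by simp; linarith
  have z1 : |(1 : ℤ)| ≤ N + 1 := by simp
  have zm : |(-1 : ℤ)| ≤ N + 1 := by simp
  have w0 : 0 ≤ w 0 := by
    have := (form 1 0 0 0 z1 z0 z0 z0).1 (by simp)
    simpa using this
  have w3 : 0 ≤ w 3 := by
    have := (form 0 0 0 1 z0 z0 z0 z1).1 (by simp)
    simpa using this
  have w1 : 0 < w 1 := by
    by_contra hn
    have := (form 0 (-1) 0 0 z0 zm z0 z0).2 (by simp; linarith)
    simp at this
    omega
  have w2 : 0 < w 2 := by
    by_contra hn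
    have := (form 0 0 (-1) 0 z0 z0 zm z0).2 (by simp; linarith)
    simp at this
    omega
  obtain ⟨a', ha'⟩ := Int.eq_ofNat_of_zero_le w0
  obtain ⟨b', hb'⟩ := Int.eq_ofNat_of_zero_le w1.le
  obtain ⟨c', hc'⟩ := Int.eq_ofNat_of_zero_le w2.le
  obtain ⟨d', hd'⟩ := Int.eq_ofNat_of_zero_le w3
  have bb : ∀ (i : Fin 4) (e : ℕ), w i = e → e < bnd 4 (N + 1) + 1 := by
    intro i e he
    have := hwb i
    rw [he] at this
    simp at this
    omega
  refine ⟨a', bb 0 _ ha', b', bb 1 _ hb', c', bb 2 _ hc', d', bb 3 _ hd', by omega, by omega, ?_⟩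
  intro x hx
  rw [ha', hb', hc', hd'] at form
  have hb'pos : 0 < b' := by omega
  set k := a0 * x / b with hk
  have hkx : k ≤ x := by
    rw [hk]
    apply Nat.div_le_of_le_mul
    exact Nat.mul_le_mul_right _ ha0b.le
  have e1 : a0 * x % b + b * k = a0 * x := Nat.mod_add_div _ _
  have e2 : a0 * x % b < b := Nat.mod_lt _ hbpos
  have e3 : a * x % b = a0 * x % b := by
    rw [ha0, Nat.mod_mul_mod]
  have xq : (x : ℤ) ≤ N := by exact_mod_cast hx
  have kq : (k : ℤ) ≤ x := by exact_mod_cast hkx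
  have x0 : (0 : ℤ) ≤ x := by positivity
  have k0 : (0 : ℤ) ≤ k := by positivity
  have e1z : ((a0 * x % b : ℕ) : ℤ) + b * k = a0 * x := by exact_mod_cast e1
  have e2z : ((a0 * x % b : ℕ) : ℤ) < b := by exact_mod_cast e2
  have m0 : (0 : ℤ) ≤ ((a0 * x % b : ℕ) : ℤ) := by positivity
  have ax : |(x : ℤ)| ≤ N + 1 := by rw [abs_le]; constructor <;> linarith
  have amx : |(-x : ℤ)| ≤ N + 1 := by rw [abs_le]; constructor <;> linarith
  have ak : |(k : ℤ)| ≤ N + 1 := by rw [abs_le]; constructor <;> linarith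
  have amk : |(-k : ℤ)| ≤ N + 1 := by rw [abs_le]; constructor <;> linarith
  have amk1 : |(-(k + 1) : ℤ)| ≤ N + 1 := by rw [abs_le]; constructor <;> linarith
  have f1 := (form x (-k) 0 0 ax amk z0 z0).1 (by linarith)
  have f2 : ¬ (0 : ℤ) ≤ x * a' + -(k + 1) * b' + 0 * c' + 0 * d' := by
    intro hh
    have := (form x (-(k + 1)) 0 0 ax amk1 z0 z0).2 hh
    linarith
  have f3 := form (-x) k x (-1) amx ak ax zm
  have g1 : b' * k ≤ a' * x := by
    have : (b' : ℤ) * k ≤ a' * x := by linarith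
    exact_mod_cast this
  have g2 : a' * x < b' * k + b' := by
    have : (a' : ℤ) * x < b' * k + b' := by linarith
    exact_mod_cast this
  have g3 : a' * x % b' + b' * k = a' * x := by
    have h1 : a' * x / b' = k := by
      apply Nat.div_eq_of_lt_le
      · rw [mul_comm]; exact g1
      · rw [add_mul, mul_comm k]; simpa using g2
    rw [← h1]
    exact Nat.mod_add_div _ _
  have g3z : ((a' * x % b' : ℕ) : ℤ) + b' * k = a' * x := by exact_mod_cast g3
  unfold inP
  rw [e3]
  constructor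
  · intro hh
    have hz : ((a0 * x % b : ℕ) : ℤ) + d ≤ c * x := by exact_mod_cast hh
    have := f3.1 (by linarith)
    have : ((a' * x % b' : ℕ) : ℤ) + d' ≤ c' * x := by linarith
    exact_mod_cast this
  · intro hh
    have hz : ((a' * x % b' : ℕ) : ℤ) + d' ≤ c' * x := by exact_mod_cast hh
    have := f3.2 (by linarith)
    have : ((a0 * x % b : ℕ) : ℤ) + d ≤ c * x := by linarith
    exact_mod_cast this

def tbl (N : ℕ) (l : List ℕ) : List ℕ :=
  l.foldr (fun g T => T.flatMap fun y => (List.range N).map fun k => y + k * g) [0]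

lemma mem_closure_cons (g : ℕ) (l : List ℕ) (x : ℕ) :
    x ∈ AddSubmonoid.closure {z | z ∈ g :: l} ↔
      ∃ y ∈ AddSubmonoid.closure {z | z ∈ l}, ∃ k : ℕ, y + k * g = x := by
  constructor
  · intro hx
    induction hx using AddSubmonoid.closure_induction with
    | mem z hz =>
      rcases List.mem_cons.1 hz with h | h
      · exact ⟨0, zero_mem _, 1, by simp [h]⟩
      · exact ⟨z, AddSubmonoid.subset_closure h, 0, by simp⟩
    | zero => exact ⟨0, zero_mem _, 0, by simp⟩
    | add u v _ _ hu hv =>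
      obtain ⟨y1, hy1, k1, rfl⟩ := hu
      obtain ⟨y2, hy2, k2, rfl⟩ := hv
      exact ⟨y1 + y2, add_mem hy1 hy2, k1 + k2, by ring⟩
  · rintro ⟨y, hy, k, rfl⟩
    apply add_mem
    · exact AddSubmonoid.closure_mono (fun z hz => List.mem_cons_of_mem _ hz) hy
    · have : g ∈ AddSubmonoid.closure {z | z ∈ g :: l} :=
        AddSubmonoid.subset_closure (List.mem_cons_self)
      simpa using nsmul_mem this k

lemma mem_closure_nil (x : ℕ) : x ∈ AddSubmonoid.closure {z : ℕ | z ∈ ([] : List ℕ)} ↔ x = 0 := by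
  simp

lemma mem_tbl (N : ℕ) (l : List ℕ) : ∀ x < N, (x ∈ tbl N l ↔ x ∈ AddSubmonoid.closure {z | z ∈ l}) := by
  induction l with
  | nil => intro x _; simp [tbl]
  | cons g l ih =>
    intro x hx
    rw [mem_closure_cons]
    have : tbl N (g :: l) = (tbl N l).flatMap fun y => (List.range N).map fun k => y + k * g := rfl
    rw [this]
    simp only [List.mem_flatMap, List.mem_map, List.mem_range]
    constructor
    · rintro ⟨y, hy, k, _, rfl⟩
      exact ⟨y, (ih y (by omega)).1 hy, k, rfl⟩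
    · rintro ⟨y, hy, k, rfl⟩
      rcases Nat.eq_zero_or_pos g with h | h
      · exact ⟨y, (ih y (by omega)).2 hy, 0, by omega, by simp [h]⟩
      · refine ⟨y, (ih y (by omega)).2 hy, k, ?_, rfl⟩
        have : k ≤ k * g := Nat.le_mul_of_pos_right _ h
        omega

lemma small_rep (m : ℕ) (hm : 0 < m) (l : List ℕ) :
    ∀ x ∈ AddSubmonoid.closure {z | z ∈ l}, ∃ y ∈ AddSubmonoid.closure {z | z ∈ l},
      y ≤ m * l.sum ∧ y ≡ x [MOD m] := by
  induction l with
  | nil => intro x hx; exact ⟨x, hx, by simpa using hx, Nat.ModEq.refl _⟩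
  | cons g l ih =>
    intro x hx
    obtain ⟨y, hy, k, rfl⟩ := (mem_closure_cons g l x).1 hx
    obtain ⟨y', hy', hle, hmod⟩ := ih y hy
    refine ⟨y' + (k % m) * g, (mem_closure_cons g l _).2 ⟨y', hy', k % m, rfl⟩, ?_, ?_⟩
    · rw [List.sum_cons, mul_add]
      have : k % m * g ≤ m * g := Nat.mul_le_mul_right _ (Nat.mod_lt _ hm).le
      omega
    · exact Nat.ModEq.add hmod (Nat.ModEq.mul_right _ (Nat.mod_modEq _ _))

lemma exists_pos_mem {l : List ℕ} (h : l.sum ≠ 0) : ∃ m ∈ l, 0 < m ∧ m ≤ l.sum := by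
  by_contra hn
  push Not at hn
  apply h
  apply List.sum_eq_zero
  intro x hx
  by_contra h0
  have := hn x hx (Nat.pos_of_ne_zero h0)
  have := List.single_le_sum (l := l) (fun _ _ => Nat.zero_le _) x hx
  omega

def target (l : List ℕ) : Prop :=
  ∃ a b c d : ℕ, b ≠ 0 ∧ c ≠ 0 ∧
    ∀ x : ℕ, x ∈ AddSubmonoid.closure {z | z ∈ l} ↔ (inP a b c d x ∨ x = 0)

def nn (l : List ℕ) : ℕ := l.sum * l.sum + l.sum

def kk (l : List ℕ) : ℕ := bnd 4 (nn l + 1) + 1

def test (l : List ℕ) : Prop :=
  ¬ l.sum = 0 ∧ (∀ x ∈ List.range (nn l + 1), ¬ l.sum * l.sum ≤ x ∨ x ∈ tbl (nn l + 1) l) ∧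
    ∃ a ∈ List.range (kk l), ∃ b ∈ List.range (kk l), ∃ c ∈ List.range (kk l),
      ∃ d ∈ List.range (kk l), ¬ b = 0 ∧ ¬ c = 0 ∧ ∀ x ∈ List.range (nn l + 1),
        x = 0 ∨ ((x ∈ tbl (nn l + 1) l ∧ inP a b c d x) ∨
          (¬ x ∈ tbl (nn l + 1) l ∧ ¬ inP a b c d x))

lemma test_iff (l : List ℕ) : test l ↔ target l := by
  constructor
  · rintro ⟨h0, h1, a, -, b, -, c, -, d, -, hb, hc, h2⟩
    obtain ⟨m, hm, hm0, hms⟩ := exists_pos_mem h0
    have hmc : m ∈ AddSubmonoid.closure {z | z ∈ l} := AddSubmonoid.subset_closure hm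
    have big : ∀ x, l.sum * l.sum ≤ x → x ∈ AddSubmonoid.closure {z | z ∈ l} := by
      intro x
      induction x using Nat.strong_induction_on with
      | _ x ih =>
        intro hx
        by_cases hs : x < nn l + 1
        · rcases h1 x (List.mem_range.2 hs) with h | h
          · exact absurd hx h
          · exact (mem_tbl _ _ x hs).1 h
        · have : x = (x - m) + m := by unfold nn at hs; omega
          rw [this]
          exact add_mem (ih (x - m) (by unfold nn at hs; omega) (by unfold nn at hs; omega)) hmc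
    refine ⟨a, b, c, d, hb, hc, fun x => ⟨fun hx => ?_, fun hx => ?_⟩⟩
    · induction hx using AddSubmonoid.closure_induction with
      | mem z hz =>
        have hzs : z ≤ l.sum := List.single_le_sum (fun _ _ => Nat.zero_le _) z hz
        have hs : z < nn l + 1 := by unfold nn; omega
        rcases h2 z (List.mem_range.2 hs) with h | h | h
        · exact Or.inr h
        · exact Or.inl h.2
        · exact absurd ((mem_tbl _ _ z hs).2 (AddSubmonoid.subset_closure hz)) h.1
      | zero => exact Or.inr rfl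
      | add u v _ _ hu hv =>
        rcases hu with hu | hu
        · rcases hv with hv | hv
          · exact Or.inl (inP_add hu hv)
          · subst hv; exact Or.inl (by simpa using hu)
        · subst hu; simpa using hv
    · rcases hx with hx | hx
      · by_cases hs : x < nn l + 1
        · rcases h2 x (List.mem_range.2 hs) with h | h | h
          · subst h; exact zero_mem _
          · exact (mem_tbl _ _ x hs).1 h.1
          · exact absurd hx h.2
        · exact big x (by unfold nn at hs; omega)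
      · subst hx; exact zero_mem _
  · rintro ⟨a, b, c, d, hb, hc, h⟩
    have h0 : ¬ l.sum = 0 := by
      intro h0
      have hx := (h (b + d)).2 (Or.inl (inP_large hb hc le_rfl))
      have : ∀ x ∈ AddSubmonoid.closure {z | z ∈ l}, x = 0 := by
        intro x hx
        induction hx using AddSubmonoid.closure_induction with
        | mem z hz =>
          have hzs : z ≤ l.sum := List.single_le_sum (fun _ _ => Nat.zero_le _) z hz
          omega
        | zero => rfl
        | add u v _ _ hu hv => omega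
      have := this _ hx
      omega
    obtain ⟨m, hm, hm0, hms⟩ := exists_pos_mem h0
    have hmc : m ∈ AddSubmonoid.closure {z | z ∈ l} := AddSubmonoid.subset_closure hm
    refine ⟨h0, ?_, ?_⟩
    · intro x hx
      rw [List.mem_range] at hx
      by_cases hs : l.sum * l.sum ≤ x
      · right
        rw [mem_tbl _ _ x hx]
        have hx' : x + (b + d) * m ∈ AddSubmonoid.closure {z | z ∈ l} := by
          apply (h _).2
          left
          apply inP_large hb hc
          have : b + d ≤ (b + d) * m := Nat.le_mul_of_pos_right _ hm0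
          omega
        obtain ⟨y, hy, hle, hmod⟩ := small_rep m hm0 l _ hx'
        have hyx : y ≤ x := le_trans hle (le_trans (Nat.mul_le_mul_right _ hms) hs)
        have hmod' : y ≡ x [MOD m] := by
          refine hmod.trans ?_
          simp [Nat.ModEq]
        obtain ⟨t, ht⟩ := (Nat.modEq_iff_dvd' hyx).1 hmod'
        have : x = y + t • m := by
          rw [smul_eq_mul, mul_comm]; omega
        rw [this]
        exact add_mem hy (nsmul_mem hmc t)
      · exact Or.inl hs
    · obtain ⟨a', ha', b', hb', c', hc', d', hd', hb0, hc0, hw⟩ := bounded_witness (nn l) a b c d hb hc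
      refine ⟨a', List.mem_range.2 ha', b', List.mem_range.2 hb', c', List.mem_range.2 hc',
        d', List.mem_range.2 hd', hb0, hc0, ?_⟩
      intro x hx
      rw [List.mem_range] at hx
      rw [mem_tbl _ _ x hx, h x, ← hw x (by omega)]
      tauto

end Pool.Agent.Lib.MP_bd8ab5_nt
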