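import Mathlib
import Pool.Agent.Lib.MP_bd8ab5_nt.Main

namespace Pool.Agent.Lib.MP_bd8ab5_nt

open Primrec

lemma prim_sum : Primrec (fun l : List ℕ => l.sum) := by
  have : Primrec (fun l : List ℕ => l.foldr (fun b s => b + s) 0) :=
    list_foldr (f := fun l : List ℕ => l) (g := fun _ => (0 : ℕ))
      (h := fun _ p => p.1 + p.2) Primrec.id (const 0)
      (nat_add.comp (fst.comp snd) (snd.comp snd)).to₂
  refine this.of_eq (fun l => ?_)
  induction l with
  | nil => rfl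
  | cons a l ih => simp [ih]

lemma prim_bnd (n : ℕ) : Primrec (bnd n) := by
  induction n with
  | zero => exact (const 0).of_eq (fun _ => rfl)
  | succ n ih =>
    have h1 : Primrec (fun M : ℕ => 2 * (n + 1) * M * M + 1) :=
      nat_add.comp (nat_mul.comp (nat_mul.comp (const _) Primrec.id) Primrec.id) (const 1)
    have h2 : Primrec (fun M : ℕ => 2 * M * M) :=
      nat_mul.comp (nat_mul.comp (const _) Primrec.id) Primrec.id
    exact (nat_add.comp (nat_mul.comp h1 (ih.comp h2)) Primrec.id).of_eq (fun _ => rfl)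

lemma prim_nn : Primrec nn :=
  (nat_add.comp (nat_mul.comp prim_sum prim_sum) prim_sum).of_eq (fun _ => rfl)

lemma prim_nn1 : Primrec (fun l => nn l + 1) := nat_add.comp prim_nn (const 1)

lemma prim_kk : Primrec kk :=
  (nat_add.comp ((prim_bnd 4).comp prim_nn1) (const 1)).of_eq (fun _ => rfl)

lemma prim_tbl : Primrec₂ tbl := by
  have inner : Primrec₂ (fun (q : (ℕ × List ℕ) × (ℕ × List ℕ)) (y : ℕ) =>
      (List.range q.1.1).map fun k => y + k * q.2.1) := by
    refine Primrec.to₂ (list_map (f := fun r : ((ℕ × List ℕ) × (ℕ × List ℕ)) × ℕ => List.range r.1.1.1)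
      (g := fun r k => r.2 + k * r.1.2.1) ?_ ?_)
    · exact list_range.comp (fst.comp (fst.comp fst))
    · exact (nat_add.comp (snd.comp fst)
        (nat_mul.comp snd (fst.comp (snd.comp (fst.comp fst))))).to₂
  have step : Primrec₂ (fun (p : ℕ × List ℕ) (s : ℕ × List ℕ) =>
      s.2.flatMap fun y => (List.range p.1).map fun k => y + k * s.1) :=
    Primrec.to₂ (list_flatMap (f := fun q : (ℕ × List ℕ) × (ℕ × List ℕ) => q.2.2)
      (g := fun q y => (List.range q.1.1).map fun k => y + k * q.2.1) (snd.comp snd) inner)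
  exact Primrec.to₂ (list_foldr (f := fun p : ℕ × List ℕ => p.2) (g := fun _ => ([0] : List ℕ))
      (h := fun p s => s.2.flatMap fun y => (List.range p.1).map fun k => y + k * s.1)
      snd (const _) step)

lemma prim_mem : PrimrecRel (fun (x : ℕ) (T : List ℕ) => x ∈ T) := by
  have : PrimrecRel (fun (T : List ℕ) (x : ℕ) => ∃ a ∈ T, a = x) :=
    PrimrecRel.exists_mem_list Primrec.eq
  exact this.swap.of_eq (fun a b => by simp [Function.swap])

lemma prim_memtbl : PrimrecRel (fun (x : ℕ) (l : List ℕ) => x ∈ tbl (nn l + 1) l) :=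
  prim_mem.comp fst (prim_tbl.comp (prim_nn1.comp snd) snd)

lemma prim_inP {α : Type} [Primcodable α] {a b c d x : α → ℕ} (ha : Primrec a) (hb : Primrec b)
    (hc : Primrec c) (hd : Primrec d) (hx : Primrec x) :
    PrimrecPred (fun t => inP (a t) (b t) (c t) (d t) (x t)) :=
  nat_le.comp (nat_add.comp (nat_mod.comp (nat_mul.comp ha hx) hb) hd) (nat_mul.comp hc hx)

lemma ex_range {α : Type} [Primcodable α] {R : ℕ → α → Prop} {f : α → ℕ} (hR : PrimrecRel R)
    (hf : Primrec f) : PrimrecPred (fun t => ∃ a ∈ List.range (f t), R a t) :=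
  hR.exists_mem_list.comp (list_range.comp hf) Primrec.id

lemma all_range {α : Type} [Primcodable α] {R : ℕ → α → Prop} {f : α → ℕ} (hR : PrimrecRel R)
    (hf : Primrec f) : PrimrecPred (fun t => ∀ a ∈ List.range (f t), R a t) :=
  hR.forall_mem_list.comp (list_range.comp hf) Primrec.id

lemma prim_core : PrimrecPred (fun t : ℕ × ℕ × ℕ × ℕ × List ℕ =>
    ¬ t.2.2.1 = 0 ∧ ¬ t.2.1 = 0 ∧ ∀ x ∈ List.range (nn t.2.2.2.2 + 1),
        x = 0 ∨ ((x ∈ tbl (nn t.2.2.2.2 + 1) t.2.2.2.2 ∧ inP t.2.2.2.1 t.2.2.1 t.2.1 t.1 x) ∨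
          (¬ x ∈ tbl (nn t.2.2.2.2 + 1) t.2.2.2.2 ∧ ¬ inP t.2.2.2.1 t.2.2.1 t.2.1 t.1 x))) := by
  have hl : Primrec (fun t : ℕ × ℕ × ℕ × ℕ × List ℕ => t.2.2.2.2) :=
    snd.comp (snd.comp (snd.comp snd))
  have ha : Primrec (fun t : ℕ × ℕ × ℕ × ℕ × List ℕ => t.2.2.2.1) :=
    fst.comp (snd.comp (snd.comp snd))
  have hb : Primrec (fun t : ℕ × ℕ × ℕ × ℕ × List ℕ => t.2.2.1) :=
    fst.comp (snd.comp snd)
  have hc : Primrec (fun t : ℕ × ℕ × ℕ × ℕ × List ℕ => t.2.1) := fst.comp snd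
  have hd : Primrec (fun t : ℕ × ℕ × ℕ × ℕ × List ℕ => t.1) := fst
  refine (Primrec.eq.comp hb (const 0)).not.and ((Primrec.eq.comp hc (const 0)).not.and ?_)
  refine all_range (R := fun x (t : ℕ × ℕ × ℕ × ℕ × List ℕ) =>
    x = 0 ∨ ((x ∈ tbl (nn t.2.2.2.2 + 1) t.2.2.2.2 ∧ inP t.2.2.2.1 t.2.2.1 t.2.1 t.1 x) ∨
          (¬ x ∈ tbl (nn t.2.2.2.2 + 1) t.2.2.2.2 ∧ ¬ inP t.2.2.2.1 t.2.2.1 t.2.1 t.1 x)))
    ?_ (prim_nn1.comp hl)
  have m : PrimrecPred (fun p : ℕ × (ℕ × ℕ × ℕ × ℕ × List ℕ) =>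
      p.1 ∈ tbl (nn p.2.2.2.2.2 + 1) p.2.2.2.2.2) := prim_memtbl.comp fst (hl.comp snd)
  have i : PrimrecPred (fun p : ℕ × (ℕ × ℕ × ℕ × ℕ × List ℕ) =>
      inP p.2.2.2.2.1 p.2.2.2.1 p.2.2.1 p.2.1 p.1) :=
    prim_inP (ha.comp snd) (hb.comp snd) (hc.comp snd) (hd.comp snd) fst
  exact (Primrec.eq.comp fst (const 0)).or ((m.and i).or (m.not.and i.not))

lemma prim_test : PrimrecPred test := by
  unfold test
  refine (Primrec.eq.comp prim_sum (const 0)).not.and (PrimrecPred.and ?_ ?_)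
  · refine all_range (R := fun x (l : List ℕ) => ¬ l.sum * l.sum ≤ x ∨ x ∈ tbl (nn l + 1) l)
      ?_ prim_nn1
    exact (nat_le.comp (nat_mul.comp (prim_sum.comp snd) (prim_sum.comp snd)) fst).not.or
      prim_memtbl
  · have h4 := ex_range (PrimrecPred.primrecRel prim_core)
      (prim_kk.comp (snd.comp (snd.comp snd)) :
        Primrec (fun t : ℕ × ℕ × ℕ × List ℕ => kk t.2.2.2))
    have h3 := ex_range (PrimrecPred.primrecRel h4)
      (prim_kk.comp (snd.comp snd) : Primrec (fun t : ℕ × ℕ × List ℕ => kk t.2.2))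
    have h2 := ex_range (PrimrecPred.primrecRel h3)
      (prim_kk.comp snd : Primrec (fun t : ℕ × List ℕ => kk t.2))
    have h1 := ex_range (PrimrecPred.primrecRel h2) prim_kk
    exact h1

theorem prim_target : PrimrecPred target := prim_test.of_eq test_iff

lemma target_iff (l : List ℕ) : target l ↔ ∃ a b c d : ℕ, b ≠ 0 ∧ c ≠ 0 ∧
    (Nat.cast : ℕ → ℤ) '' (AddSubmonoid.closure {g : ℕ | g ∈ l} : Set ℕ) =
      {x : ℤ | ((a : ℤ) * x) % (b : ℤ) ≤ (c : ℤ) * x - (d : ℤ)} ∪ {0} := by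
  unfold target
  refine exists_congr fun a => exists_congr fun b => exists_congr fun c => exists_congr fun d =>
    and_congr_right fun hb => and_congr_right fun hc => ?_
  have conv : ∀ x : ℕ, inP a b c d x ↔ ((a : ℤ) * x) % (b : ℤ) ≤ (c : ℤ) * x - (d : ℤ) := by
    intro x
    unfold inP
    rw [le_sub_iff_add_le]
    exact_mod_cast Iff.rfl
  constructor
  · intro h
    ext z
    simp only [Set.mem_image, SetLike.mem_coe, Set.mem_union, Set.mem_ofPred_eq,
      Set.mem_singleton_iff]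
    constructor
    · rintro ⟨x, hx, rfl⟩
      rcases (h x).1 hx with h1 | h1
      · exact Or.inl ((conv x).1 h1)
      · exact Or.inr (by simp [h1])
    · rintro (h1 | h1)
      · have hz : 0 ≤ z := by
          have e1 : 0 ≤ ((a : ℤ) * z) % (b : ℤ) := Int.emod_nonneg _ (by exact_mod_cast hb)
          have e2 : (0 : ℤ) < c := by exact_mod_cast Nat.pos_of_ne_zero hc
          have e3 : (0 : ℤ) ≤ d := by positivity
          by_contra hn
          push Not at hn
          nlinarith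
        obtain ⟨x, rfl⟩ := Int.eq_ofNat_of_zero_le hz
        exact ⟨x, (h x).2 (Or.inl ((conv x).2 h1)), rfl⟩
      · exact ⟨0, zero_mem _, by simp [h1]⟩
  · intro h x
    have := Set.ext_iff.1 h (x : ℤ)
    simp only [Set.mem_image, SetLike.mem_coe, Set.mem_union, Set.mem_ofPred_eq,
      Set.mem_singleton_iff, Nat.cast_inj, exists_eq_right, Nat.cast_eq_zero] at this
    rw [this, conv]

end Pool.Agent.Lib.MP_bd8ab5_nt
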